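import Pool.Agent.Results.MP_4d47e8_co.BeyondLinear

/-!
Three functions on the integers modulo 65 for pairwise orthogonal Knut Vik designs of order 65
(helper807, MP_4d47e8_co); found by a computer search.
-/

set_option autoImplicit false

namespace Pool.Agent.Y807.KV

open Pool.Agent.Results.MP_4d47e8_co.BeyondLinear

/-- The values of the three functions. -/
def T65 : List (List ℕ) :=
  [
   [0,20,52,6,57,41,60,46,30,22,61,51,16,7,12,33,26,40,34,28,50,42,29,18,48,62,9,54,27,21,10,63,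
    1,64,2,55,44,38,11,56,3,17,47,36,23,15,37,31,25,39,32,53,58,49,14,4,43,35,19,5,24,8,59,13,
    45],
   [0,63,40,4,39,45,12,23,49,11,17,22,55,47,27,6,60,34,44,29,57,7,37,46,32,30,14,9,24,62,1,50,
    52,13,15,64,3,41,56,51,35,33,19,28,58,8,36,21,31,5,59,38,18,10,43,48,54,16,42,53,20,26,61,
    25,2],
   [0,26,61,30,15,63,8,6,13,17,25,47,24,37,46,5,33,1,22,38,34,56,44,51,45,16,29,7,54,42,12,62,
    55,10,3,53,23,11,58,36,49,20,14,21,9,31,27,43,64,32,60,19,28,41,18,40,48,52,59,57,2,50,35,4,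
    39]
  ]

theorem sys65 : Sys 65 3 := by
  refine ⟨fun i x => tab T65 i x, ?_, ?_, ?_, ?_⟩ <;> decide +kernel

end Pool.Agent.Y807.KV
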